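import Pool.Agent.TH43.PL.WinU

set_option autoImplicit false

namespace Pool.Agent.Results.MP_cb106b_nt.InitialSegmentNearSqrt

open Finset Pool.Agent.H95R2.Leh Pool.Agent.TH836.Leh Pool.Agent.TH43.PL

open Classical in
/-- For every `ε > 0` there is `C` such that for all `x ≥ 1` and `Δ ≥ 1` at most
`C x^(1/2 + ε) / Δ` integers `n` with `3 ≤ n ≤ x` and `φ(n) ∣ n + 1` have a prime factor `q` such that the product `f` of the prime factors of `n` smaller than `q` satisfies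
`Δ √(x / q) ≤ f ≤ √(x q) / Δ`. -/
theorem result (ε : ℝ) (hε : 0 < ε) : ∃ C : ℝ, 0 < C ∧ ∀ (x : ℕ) (Δ : ℝ), 1 ≤ x → 1 ≤ Δ →
    (((Icc 3 x).filter (fun n : ℕ => n.totient ∣ n + 1 ∧
      ∃ q : ℕ, q.Prime ∧ q ∣ n ∧
        Δ * Real.sqrt ((x : ℝ) / q) ≤ ∏ r ∈ n.primeFactors.filter (fun r : ℕ => r < q), (r : ℝ) ∧
        ∏ r ∈ n.primeFactors.filter (fun r : ℕ => r < q), (r : ℝ) ≤
          Real.sqrt ((x : ℝ) * q) / Δ)).card : ℝ) ≤ C * (x : ℝ) ^ (1 / 2 + ε) / Δ := by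
  obtain ⟨C, hC, h⟩ := winu ε hε
  refine ⟨C, hC, fun x Δ hx hΔ => ?_⟩
  have hXp : (0 : ℝ) < (x : ℝ) := by exact_mod_cast hx
  have hΔ0 : 0 < Δ := by linarith
  have e0 : C * (x : ℝ) ^ (1 / 2 + ε) / Δ = C * (x : ℝ) ^ ε * (Real.sqrt x / Δ) := by
    rw [Real.sqrt_eq_rpow, Real.rpow_add hXp]
    ring
  rw [e0]
  refine le_trans ?_ (h x Δ hx hΔ)
  apply Nat.cast_le.2
  apply card_le_card
  intro n hn
  unfold WU
  rw [mem_filter, mem_Icc] at hn ⊢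
  obtain ⟨⟨h1, h2⟩, hd, q, hq, hqn, h5, h6⟩ := hn
  refine ⟨⟨by omega, h2⟩, ⟨by omega, hd⟩, q, hq, hqn, ?_, ?_⟩
  · have hq0 : (0 : ℝ) < (q : ℝ) := by exact_mod_cast hq.pos
    have hf : ∏ r ∈ n.primeFactors.filter (fun r : ℕ => r < q), (r : ℝ) = (seg n q : ℝ) := by
      unfold seg
      push_cast
      rfl
    rw [hf] at h6
    have h7 := pow_le_pow_left₀ (Nat.cast_nonneg _) h6 2
    rw [div_pow, Real.sq_sqrt (by positivity)] at h7
    refine h7.trans (le_of_eq ?_)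
    ring
  · have hq0 : (0 : ℝ) < (q : ℝ) := by exact_mod_cast hq.pos
    have hf : ∏ r ∈ n.primeFactors.filter (fun r : ℕ => r < q), (r : ℝ) = (seg n q : ℝ) := by
      unfold seg
      push_cast
      rfl
    rw [hf] at h5
    have h7 := pow_le_pow_left₀ (by positivity) h5 2
    rw [mul_pow, Real.sq_sqrt (by positivity)] at h7
    calc (x : ℝ) ^ 2 = (Δ ^ 2 * ((x : ℝ) / q)) * ((x : ℝ) / Δ ^ 2 * q) := by
          field_simp
      _ ≤ (seg n q : ℝ) ^ 2 * ((x : ℝ) / Δ ^ 2 * q) :=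
          mul_le_mul_of_nonneg_right h7 (by positivity)

end Pool.Agent.Results.MP_cb106b_nt.InitialSegmentNearSqrt
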