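import Pool.Agent.TH836.Leh.FinalP

set_option autoImplicit false

namespace Pool.Agent.Results.MP_cb106b_nt.PlusOneSqrtLogLogSquared

/-- There is a constant `C` such that for every `x ≥ 2` the number of integers `n` with `3 ≤ n ≤ x`
and `φ(n) ∣ n + 1` is at most `C √x exp (-(log log x)² / 48)`. -/
theorem result : ∃ C : ℝ, 0 < C ∧ ∀ x : ℕ, 2 ≤ x →
    (((Finset.Icc 3 x).filter (fun n : ℕ => n.totient ∣ n + 1)).card : ℝ) ≤
      C * Real.sqrt x * Real.exp (-(Real.log (Real.log x)) ^ 2 / 48) := by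
  classical
  obtain ⟨C, hC, h⟩ := Pool.Agent.TH836.Leh.plus_count
  refine ⟨C, hC, ?_⟩
  intro x hx
  have h1 := h x hx
  have h2 : C * Real.sqrt x * Real.exp (-(Real.log (Real.log x)) ^ 2 / 48) =
      C * (Real.sqrt x * Real.exp (-((Real.log (Real.log x)) ^ 2 / 48))) := by
    rw [mul_assoc, neg_div]
  rw [h2]
  refine le_trans ?_ h1
  have hsub : (Finset.Icc 3 x).filter (fun n : ℕ => n.totient ∣ n + 1) ⊆
      (Finset.Icc 1 x).filter Pool.Agent.TH836.Leh.LehP := by
    intro n hn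
    rw [Finset.mem_filter, Finset.mem_Icc] at hn ⊢
    exact ⟨⟨by omega, hn.1.2⟩, by omega, hn.2⟩
  exact_mod_cast Finset.card_le_card hsub

end Pool.Agent.Results.MP_cb106b_nt.PlusOneSqrtLogLogSquared
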