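import Pool.Agent.TH76.LehP.PlusOne

set_option autoImplicit false

namespace Pool.Agent.Results.MP_cb106b_nt.SmallestPrimeFactor

open Pool.Agent.TH76.LehP

/-- There are absolute `δ, c > 0` such that every `n > 2` with `φ(n) ∣ n + 1`, with least prime
factor `p` and `k = n / φ(n)`, has at least `c p ^ max((1 + δ) k, exp(δ k))` distinct prime
factors. -/
theorem result : ∃ δ c : ℝ, 0 < δ ∧ 0 < c ∧ ∀ n : ℕ, 2 < n → n.totient ∣ n + 1 →
    c * (n.minFac : ℝ) ^ (max ((1 + δ) * ((n : ℝ) / (n.totient : ℝ)))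
      (Real.exp (δ * ((n : ℝ) / (n.totient : ℝ))))) ≤ (n.primeFactors.card : ℝ) := by
  obtain ⟨δ, c, hδ, hc, h⟩ := unified
  refine ⟨δ, c, hδ, hc, fun n hn hd => ?_⟩
  obtain ⟨h1, h2⟩ := plus_props hn hd
  exact h n hn h1 h2

end Pool.Agent.Results.MP_cb106b_nt.SmallestPrimeFactor
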